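import Pool.Agent.H379.TN.Stms

/-!
# Project TN (helper379), part C: `Hom_C(Q, C) = 0` and `Ext^i_C(Q, C) = 0` for `i ≥ 1`
-/

set_option autoImplicit false
set_option linter.unusedSectionVars false
set_option linter.unusedVariables false

open CategoryTheory CategoryTheory.Abelian
open Pool.Agent.H379.GS Pool.Agent.H379.TN
open Pool.Agent.H190.NK (shortExact_of co_mid)

namespace Pool.Agent.H94.TN

/-! ### Ext lemmas -/

section sequences

variable {R : Type} [Ring R] {S : ShortComplex (ModuleCat.{0} R)} (hS : S.ShortExact)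

include hS

/-- the kernel of a projective cover -/
theorem contra_ker [Projective S.X₂] (Y : ModuleCat.{0} R) (n : ℕ)
    (h : Subsingleton (Ext S.X₃ Y (n + 2))) : Subsingleton (Ext S.X₁ Y (n + 1)) := by
  refine subsingleton_of_forall_eq 0 fun x => ?_
  obtain ⟨x₂, hx₂⟩ := Ext.contravariant_sequence_exact₁ hS Y x (show 1 + (n + 1) = n + 2 by omega)
    (Subsingleton.elim _ _)
  rw [← hx₂, Ext.eq_zero_of_projective x₂, Ext.comp_zero]

/-- the extension property from `Ext¹ = 0` -/
theorem contra_lift (Y : ModuleCat.{0} R) (h : Subsingleton (Ext S.X₃ Y 1)) (g : S.X₁ ⟶ Y) :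
    ∃ g' : S.X₂ ⟶ Y, S.f ≫ g' = g := by
  obtain ⟨x₂, hx₂⟩ := Ext.contravariant_sequence_exact₁ hS Y (Ext.mk₀ g) (show 1 + 0 = 1 by omega)
    (Subsingleton.elim _ _)
  obtain ⟨g', rfl⟩ := (Ext.addEquiv₀ (X := S.X₂) (Y := Y)).symm.surjective x₂
  refine ⟨g', ?_⟩
  apply (Ext.addEquiv₀ (X := S.X₁) (Y := Y)).symm.injective
  have : Ext.addEquiv₀.symm (S.f ≫ g') = (Ext.mk₀ S.f).comp (Ext.mk₀ g') (zero_add 0) := by
    rw [Ext.mk₀_comp_mk₀]
    rfl
  rw [this]
  exact hx₂

theorem contra_mid (Y : ModuleCat.{0} R) (n : ℕ) (h1 : Subsingleton (Ext S.X₁ Y n))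
    (h3 : Subsingleton (Ext S.X₃ Y n)) : Subsingleton (Ext S.X₂ Y n) := by
  refine subsingleton_of_forall_eq 0 fun x => ?_
  obtain ⟨x₁, hx₁⟩ := Ext.contravariant_sequence_exact₂ hS Y x (Subsingleton.elim _ _)
  rw [← hx₁, Subsingleton.elim x₁ 0, Ext.comp_zero]

/-- the first term of a sequence with injective middle term -/
theorem co_ker [Injective S.X₂] (X : ModuleCat.{0} R) (n : ℕ)
    (h : Subsingleton (Ext X S.X₃ n)) : Subsingleton (Ext X S.X₁ (n + 1)) := by
  refine subsingleton_of_forall_eq 0 fun x => ?_
  obtain ⟨x₃, hx₃⟩ := Ext.covariant_sequence_exact₁ X hS x (Ext.eq_zero_of_injective _)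
    (show n + 1 = n + 1 from rfl)
  rw [← hx₃, Subsingleton.elim x₃ 0, Ext.zero_comp]

end sequences

theorem ext_of_iso {R : Type} [Ring R] {X Y Y' : ModuleCat.{0} R} (e : Y ≅ Y') (n : ℕ)
    (h : Subsingleton (Ext X Y n)) : Subsingleton (Ext X Y' n) := by
  refine subsingleton_of_forall_eq 0 fun x => ?_
  have h1 : (x.comp (Ext.mk₀ e.inv) (add_zero n)).comp (Ext.mk₀ e.hom) (add_zero n) = x := by
    rw [Ext.comp_assoc_of_third_deg_zero, Ext.mk₀_comp_mk₀, e.inv_hom_id, Ext.comp_mk₀_id]
  rw [← h1, Subsingleton.elim (x.comp (Ext.mk₀ e.inv) (add_zero n)) 0, Ext.zero_comp]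

theorem subsingleton_ext_zero {R : Type} [Ring R] {X Y : Type} [AddCommGroup X] [Module R X]
    [AddCommGroup Y] [Module R Y] (h : ∀ f : X →ₗ[R] Y, f = 0) :
    Subsingleton (Ext.{0} (ModuleCat.of R X) (ModuleCat.of R Y) 0) := by
  refine subsingleton_of_forall_eq 0 fun x => ?_
  obtain ⟨g, rfl⟩ := (Ext.addEquiv₀ (X := ModuleCat.of R X) (Y := ModuleCat.of R Y)).symm.surjective x
  have : g = 0 := by
    apply ModuleCat.hom_ext
    exact h g.hom
  rw [this, map_zero]

/-! ### Frobenius forms -/

section frob

variable {K B : Type} [Field K] [Ring B] [Algebra K B] [Module.Finite K B] (y : Fr K B)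

/-- `t ↦ lam (· * t)` as a linear map -/
noncomputable def phi0 : B →ₗ[K] Module.Dual K B where
  toFun t := y.lam ∘ₗ LinearMap.mulRight K t
  map_add' s t := by
    ext a
    simp [mul_add]
  map_smul' c t := by
    ext a
    simp

theorem phi0_apply (t a : B) : phi0 y t a = y.lam (a * t) := rfl

theorem phi0_inj : Function.Injective (phi0 y) := by
  rw [← LinearMap.ker_eq_bot, LinearMap.ker_eq_bot']
  intro t ht
  exact y.nondeg t fun x => LinearMap.congr_fun ht x

/-- `t ↦ lam (· * t)` -/
noncomputable def phi : B ≃ₗ[K] Module.Dual K B :=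
  LinearEquiv.ofInjectiveOfFinrankEq (phi0 y) (phi0_inj y) Subspace.dual_finrank_eq.symm

theorem phi_apply (t a : B) : phi y t a = y.lam (a * t) := rfl

theorem eq_of_lam {t t' : B} (h : ∀ a, y.lam (a * t) = y.lam (a * t')) : t = t' :=
  phi0_inj y (LinearMap.ext h)

variable {N : Type} [AddCommGroup N] [Module B N] [Module K N] [IsScalarTower K B N]

/-- the `B`-linear map with a given trace -/
noncomputable def lift (l : N →ₗ[K] K) : N →ₗ[B] B where
  toFun q := (phi y).symm (l ∘ₗ (LinearMap.toSpanSingleton B N q).restrictScalars K)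
  map_add' q q' := by
    rw [← map_add]
    congr 1
    ext a
    simp [smul_add]
  map_smul' t q := by
    apply eq_of_lam y
    intro a
    rw [← phi_apply, LinearEquiv.apply_symm_apply, RingHom.id_apply, smul_eq_mul, ← mul_assoc,
      ← phi_apply, LinearEquiv.apply_symm_apply]
    simp [mul_smul]

theorem lam_mul_lift (l : N →ₗ[K] K) (a : B) (q : N) : y.lam (a * lift y l q) = l (a • q) := by
  rw [← phi_apply]
  change phi y ((phi y).symm _) a = _
  rw [LinearEquiv.apply_symm_apply]
  simp

theorem lam_lift (l : N →ₗ[K] K) (q : N) : y.lam (lift y l q) = l q := by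
  have := lam_mul_lift y l 1 q
  simpa using this

theorem lift_lam (f : N →ₗ[B] B) : lift y (y.lam ∘ₗ f.restrictScalars K) = f := by
  ext q
  apply eq_of_lam y
  intro a
  rw [lam_mul_lift]
  simp

theorem hom_ext {f g : N →ₗ[B] B} (h : ∀ q, y.lam (f q) = y.lam (g q)) : f = g := by
  rw [← lift_lam y f, ← lift_lam y g]
  congr 1
  ext q
  exact h q

theorem sep {q q' : N} (h : ∀ s : N →ₗ[B] B, y.lam (s q) = y.lam (s q')) : q = q' := by
  rw [← sub_eq_zero, ← Module.forall_dual_apply_eq_zero_iff K]
  intro l
  have := h (lift y l)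
  rw [lam_lift, lam_lift] at this
  rw [map_sub, this, sub_self]

include y in
/-- `B` is injective as a module over itself -/
theorem injective_self : Module.Injective B B := by
  refine ⟨fun P Q _ _ _ _ f hf g => ?_⟩
  let : Module K P := Module.compHom P (algebraMap K B)
  let : Module K Q := Module.compHom Q (algebraMap K B)
  have : IsScalarTower K B P := ⟨fun c t p => by
    change (c • t) • p = algebraMap K B c • (t • p)
    rw [smul_smul, Algebra.smul_def]⟩
  have : IsScalarTower K B Q := ⟨fun c t p => by
    change (c • t) • p = algebraMap K B c • (t • p)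
    rw [smul_smul, Algebra.smul_def]⟩
  obtain ⟨l, hl⟩ := LinearMap.dualMap_surjective_of_injective (f := f.restrictScalars K)
    (by exact hf) (y.lam ∘ₗ g.restrictScalars K)
  refine ⟨lift y l, fun p => ?_⟩
  apply eq_of_lam y
  intro a
  rw [lam_mul_lift, ← map_smul]
  have := LinearMap.congr_fun hl (a • p)
  simp only [LinearMap.dualMap_apply', LinearMap.comp_apply, LinearMap.restrictScalars_apply] at this
  rw [this, map_smul, smul_eq_mul]

variable {M : Type} [AddCommGroup M] [Module B M] [Module K M] [IsScalarTower K B M]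
  [Module.Finite K M]

/-- `κ : D Hom_B(M, B) → M` -/
theorem exists_kap (ξ : Module.Dual K (M →ₗ[B] B)) :
    ∃ m : M, ∀ s : M →ₗ[B] B, y.lam (s m) = ξ s := by
  let L : Module.Dual K M →ₗ[K] (M →ₗ[B] B) :=
    { toFun := fun l => lift y l
      map_add' := fun l l' => hom_ext y fun q => by
        rw [lam_lift, LinearMap.add_apply, LinearMap.add_apply, map_add, lam_lift, lam_lift]
      map_smul' := fun c l => hom_ext y fun q => by
        rw [lam_lift, LinearMap.smul_apply, LinearMap.smul_apply, map_smul, lam_lift,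
          RingHom.id_apply] }
  obtain ⟨m, hm⟩ := (Module.evalEquiv K M).surjective (ξ ∘ₗ L)
  refine ⟨m, fun s => ?_⟩
  have h1 := LinearMap.congr_fun hm (y.lam ∘ₗ s.restrictScalars K)
  simp only [Module.evalEquiv_apply, Module.Dual.eval_apply, LinearMap.comp_apply,
    LinearMap.restrictScalars_apply] at h1
  rw [h1]
  change ξ (lift y _) = _
  rw [lift_lam]

include y in
/-- `M` is an injective module over its endomorphism algebra. -/
theorem injective_M {p₁ : M →ₗ[B] B} {e : M} (he : p₁ e = 1) :
    Module.Injective (Module.End B M) M := by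
  refine ⟨fun P Q _ _ _ _ f hf g => ?_⟩
  let : Module K P := Module.compHom P (algebraMap K (Module.End B M))
  let : Module K Q := Module.compHom Q (algebraMap K (Module.End B M))
  have hPs : ∀ (c : K) (p : P), c • p = algebraMap K (Module.End B M) c • p := fun _ _ => rfl
  have hQs : ∀ (c : K) (p : Q), c • p = algebraMap K (Module.End B M) c • p := fun _ _ => rfl
  let f' : P →ₗ[K] Q :=
    { toFun := f
      map_add' := map_add f
      map_smul' := fun c p => by rw [hPs, map_smul, RingHom.id_apply, hQs] }
  let φ : P →ₗ[K] K :=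
    { toFun := fun p => y.lam (p₁ (g p))
      map_add' := fun p p' => by rw [map_add, map_add, map_add]
      map_smul' := fun c p => by
        rw [hPs, map_smul, Module.End.smul_def, Module.algebraMap_end_apply, RingHom.id_apply,
          ← algebraMap_smul B c (g p), map_smul, algebraMap_smul, map_smul] }
  obtain ⟨ψ, hψ⟩ := LinearMap.dualMap_surjective_of_injective (f := f') (by exact hf) φ
  have hψ' : ∀ p, ψ (f p) = y.lam (p₁ (g p)) := fun p => LinearMap.congr_fun hψ p
  let ξ : Q → Module.Dual K (M →ₗ[B] B) := fun q =>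
    { toFun := fun s => ψ ((s.smulRight e : Module.End B M) • q)
      map_add' := fun s s' => by
        rw [← map_add, ← add_smul]
        congr 2
        ext z
        simp [add_smul]
      map_smul' := fun c s => by
        rw [RingHom.id_apply, ← map_smul, hQs, smul_smul]
        congr 2
        ext z
        change (c • s z) • e = c • (s z • e)
        rw [smul_assoc] }
  choose h hh using fun q => exists_kap y (ξ q)
  have hh' : ∀ (q : Q) (s : M →ₗ[B] B), y.lam (s (h q)) = ψ ((s.smulRight e : Module.End B M) • q) := hh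
  refine ⟨{ toFun := h, map_add' := fun q q' => sep y fun s => ?_,
            map_smul' := fun γ q => sep y fun s => ?_ }, fun p => sep y fun s => ?_⟩
  · rw [map_add s, map_add y.lam, hh', hh', hh', smul_add, map_add]
  · rw [RingHom.id_apply, Module.End.smul_def]
    change _ = y.lam ((s ∘ₗ γ) (h q))
    rw [hh', hh', smul_smul]
    congr 2
  · change y.lam (s (h (f p))) = _
    rw [hh', ← map_smul, hψ', map_smul, Module.End.smul_def, LinearMap.smulRight_apply, map_smul,
      he, smul_eq_mul, mul_one]

end frob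

/-! ### The functor `F` -/

/-- `F N = Hom_B(N, M)` -/
def FF (B M N : Type) [Ring B] [AddCommGroup M] [Module B M] [AddCommGroup N] [Module B N] :
    Type := N →ₗ[B] M

section functor

variable {B : Type} [Ring B] {M : Type} [AddCommGroup M] [Module B M]
variable {N : Type} [AddCommGroup N] [Module B N] {N' : Type} [AddCommGroup N'] [Module B N']
variable {N'' : Type} [AddCommGroup N''] [Module B N'']

instance : AddCommGroup (FF B M N) := inferInstanceAs (AddCommGroup (N →ₗ[B] M))

/-- the underlying map -/
def FF.un (f : FF B M N) : N →ₗ[B] M := f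
/-- from a map -/
def FF.mk (f : N →ₗ[B] M) : FF B M N := f

@[simp] theorem FF.un_mk (f : N →ₗ[B] M) : (FF.mk f).un = f := rfl
@[simp] theorem FF.un_add (f g : FF B M N) : (f + g).un = f.un + g.un := rfl
@[simp] theorem FF.un_zero : (0 : FF B M N).un = 0 := rfl
theorem FF.ext {f g : FF B M N} (h : ∀ x, f.un x = g.un x) : f = g := LinearMap.ext h

instance : Module (Module.End B M) (FF B M N) where
  smul γ f := FF.mk (γ ∘ₗ f.un)
  one_smul f := rfl
  mul_smul γ δ f := rfl
  smul_zero γ := FF.ext fun x => map_zero γ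
  smul_add γ f g := FF.ext fun x => map_add γ _ _
  add_smul γ δ f := FF.ext fun x => rfl
  zero_smul f := FF.ext fun x => rfl

@[simp] theorem FF.un_smul (γ : Module.End B M) (f : FF B M N) (x : N) :
    (γ • f).un x = γ (f.un x) := rfl

/-- precomposition -/
def Fmap (v : N →ₗ[B] N') : FF B M N' →ₗ[Module.End B M] FF B M N where
  toFun f := FF.mk (f.un ∘ₗ v)
  map_add' f g := rfl
  map_smul' γ f := rfl

@[simp] theorem un_Fmap (v : N →ₗ[B] N') (f : FF B M N') (x : N) :
    (Fmap v f).un x = f.un (v x) := rfl

/-- evaluation -/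
def eva (x : N) : FF B M N →ₗ[Module.End B M] M where
  toFun f := f.un x
  map_add' f g := rfl
  map_smul' γ f := rfl

/-- `F (B^n)` is injective if `M` is. -/
theorem injective_FF (hM : Module.Injective (Module.End B M) M) (n : ℕ) :
    Module.Injective (Module.End B M) (FF B M (Fin n → B)) := by
  refine ⟨fun P Q _ _ _ _ f hf g => ?_⟩
  have h : ∀ i : Fin n, ∃ h : Q →ₗ[Module.End B M] M, ∀ p, h (f p) =
      (eva (Pi.single i (1 : B)) ∘ₗ g) p := fun i => hM.out f hf _
  choose h hh using h
  refine ⟨{ toFun := fun q => FF.mk (∑ i, (LinearMap.toSpanSingleton B M (h i q)) ∘ₗ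
              (LinearMap.proj i : (Fin n → B) →ₗ[B] B))
            map_add' := fun q q' => FF.ext fun x => ?_
            map_smul' := fun γ q => FF.ext fun x => ?_ }, fun p => FF.ext fun x => ?_⟩
  · simp [Finset.sum_add_distrib]
  · simp only [FF.un_mk, RingHom.id_apply, FF.un_smul, LinearMap.sum_apply, LinearMap.comp_apply,
      map_sum]
    refine Finset.sum_congr rfl fun i _ => ?_
    rw [LinearMap.toSpanSingleton_apply, LinearMap.toSpanSingleton_apply, map_smul, map_smul,
      Module.End.smul_def]
  · change (∑ i, (LinearMap.toSpanSingleton B M (h i (f p))) ∘ₗ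
              (LinearMap.proj i : (Fin n → B) →ₗ[B] B)) x = (g p).un x
    simp only [LinearMap.sum_apply, LinearMap.comp_apply, LinearMap.toSpanSingleton_apply, hh,
      LinearMap.proj_apply]
    change ∑ i, x i • (g p).un (Pi.single i (1 : B)) = _
    conv_rhs => rw [pi_eq_sum_univ' x]
    rw [map_sum]
    refine Finset.sum_congr rfl fun i _ => ?_
    rw [map_smul]

theorem Fmap_inj {q : N →ₗ[B] N'} (hq : Function.Surjective q) :
    Function.Injective (Fmap (M := M) q) := by
  intro f g h
  refine FF.ext fun x => ?_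
  obtain ⟨z, rfl⟩ := hq x
  rw [← un_Fmap, h, un_Fmap]

theorem Fmap_exact {j : N →ₗ[B] N'} {q : N' →ₗ[B] N''} (hq : Function.Surjective q)
    (hex : ∀ b, q b = 0 → ∃ a, j a = b) (f : FF B M N') (h : Fmap j f = 0) :
    ∃ g : FF B M N'', Fmap q g = f := by
  have hk : LinearMap.ker q ≤ LinearMap.ker f.un := by
    intro b hb
    obtain ⟨a, rfl⟩ := hex b hb
    have : (Fmap j f).un a = 0 := by rw [h]; rfl
    exact this
  refine ⟨FF.mk ((LinearMap.ker q).liftQ f.un hk ∘ₗ
    (q.quotKerEquivOfSurjective hq).symm.toLinearMap), FF.ext fun x => ?_⟩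
  rw [un_Fmap, FF.un_mk, LinearMap.comp_apply]
  have : (q.quotKerEquivOfSurjective hq).symm (q x) = (LinearMap.ker q).mkQ x := by
    rw [LinearEquiv.symm_apply_eq]
    rfl
  rw [LinearEquiv.coe_coe, this, Submodule.mkQ_apply, Submodule.liftQ_apply]

end functor

/-! ### The class of modules -/

section cls

variable {K B : Type} [Field K] [Ring B] [Algebra K B] [Module.Finite K B]
variable {M : Type} [AddCommGroup M] [Module B M]

theorem main_step (Q : Type) [AddCommGroup Q] [Module (Module.End B M) Q]
    (hM : Module.Injective (Module.End B M) M)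
    (h0 : ∀ f : Q →ₗ[Module.End B M] M, f = 0) (k : ℕ) :
    ∀ (N : Type) [AddCommGroup N] [Module B N] [Module K N] [IsScalarTower K B N]
      [Module.Finite K N], EV B N M →
      Subsingleton (Ext.{0} (ModuleCat.of (Module.End B M) Q)
        (ModuleCat.of (Module.End B M) (FF B M N)) k) := by
  induction k with
  | zero =>
    intro N _ _ _ _ _ _
    refine subsingleton_ext_zero fun f => LinearMap.ext fun q => FF.ext fun x => ?_
    exact LinearMap.congr_fun (h0 (eva x ∘ₗ f)) q
  | succ k ih =>
    intro N _ _ _ _ _ hN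
    have : Module.Finite B N := Module.Finite.of_restrictScalars_finite K B N
    obtain ⟨n, q, hq⟩ := Module.Finite.exists_fin' B N
    have hex : ∀ b, q b = 0 → ∃ a, (LinearMap.ker q).subtype a = b :=
      fun b hb => ⟨⟨b, hb⟩, rfl⟩
    have hz : ∀ a, q ((LinearMap.ker q).subtype a) = 0 := fun a => a.2
    have hSE := shortExact_of (LinearMap.ker q).subtype q (Submodule.injective_subtype _) hq hz hex
    have hproj : Projective (ModuleCat.of B (Fin n → B)) :=
      (IsProjective.iff_projective _).mp inferInstance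
    have hfin : Module.Finite K (LinearMap.ker q) :=
      Module.Finite.of_injective ((LinearMap.ker q).subtype.restrictScalars K)
        (Submodule.injective_subtype _)
    have hN' : EV B (LinearMap.ker q) M := fun m => contra_ker hSE (ModuleCat.of B M) m (hN (m + 1))
    have hext : ∀ g : FF B M (LinearMap.ker q), ∃ g' : FF B M (Fin n → B),
        Fmap (LinearMap.ker q).subtype g' = g := by
      intro g
      obtain ⟨g', hg'⟩ := contra_lift hSE (ModuleCat.of B M) (hN 0) (ModuleCat.ofHom g.un)
      refine ⟨FF.mk g'.hom, FF.ext fun x => ?_⟩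
      exact LinearMap.congr_fun (congrArg ModuleCat.Hom.hom hg') x
    have hSE' := shortExact_of (Fmap (M := M) q) (Fmap (M := M) (LinearMap.ker q).subtype)
      (Fmap_inj hq) hext (fun f => FF.ext fun x => by
        rw [un_Fmap, un_Fmap, hz, map_zero]; rfl)
      (fun f hf => Fmap_exact hq hex f hf)
    have hI := injective_FF hM n
    have hI' : Injective (ModuleCat.of (Module.End B M) (FF B M (Fin n → B))) :=
      Module.injective_object_of_injective_module _ _
    exact co_ker hSE' (ModuleCat.of (Module.End B M) Q) k (ih (LinearMap.ker q) hN')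

end cls

theorem s_C : S_C := by
  intro K B _ _ _ _ y U _ _ _ _ _ _ π hπ hU
  have he : (LinearMap.fst B B U) ((1, 0) : B × U) = 1 := rfl
  have hM := injective_M y he
  -- `Hom_C(Q, M) = 0`
  have h0 : ∀ f : Chi π →ₗ[Module.End B (B × U)] (B × U), f = 0 := by
    intro f
    refine LinearMap.ext fun q => sep y fun s => ?_
    have h1 : π (s.smulRight ((1, 0) : B × U) : Module.End B (B × U)) = 0 := by
      obtain ⟨u, hu⟩ := exists_ne (0 : U)
      have h2 := hπ (s.smulRight ((1, 0) : B × U) : Module.End B (B × U)) u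
      have h3 : ((s.smulRight ((1, 0) : B × U) : Module.End B (B × U)) (0, u)).2 = 0 := by
        change (s (0, u) • ((1, 0) : B × U)).2 = 0
        rw [Prod.smul_snd, smul_zero]
      rw [h3] at h2
      rcases smul_eq_zero.1 h2.symm with h4 | h4
      · exact h4
      · exact absurd h4 hu
    have h2 : (s.smulRight ((1, 0) : B × U) : Module.End B (B × U)) • q = 0 := by
      apply Chi.ext π
      rw [Chi.un_smul, h1, zero_mul]
      rfl
    have h3 : (s.smulRight ((1, 0) : B × U) : Module.End B (B × U)) • f q = 0 := by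
      rw [← map_smul, h2, map_zero]
    have h4 : s (f q) • ((1, 0) : B × U) = 0 := h3
    have h5 : s (f q) = 0 := by
      have := congrArg Prod.fst h4
      simpa using this
    rw [h5, LinearMap.zero_apply, map_zero s]
  -- the endomorphism algebra
  let eC : FF B (B × U) (B × U) ≃ₗ[Module.End B (B × U)] Module.End B (B × U) :=
    { toFun := fun f => f.un
      map_add' := fun f g => rfl
      map_smul' := fun γ f => rfl
      invFun := fun f => FF.mk f
      left_inv := fun f => rfl
      right_inv := fun f => rfl }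
  -- `Ext^i_B(M, M) = 0`
  have hinjB := injective_self y
  have hIB : Injective (ModuleCat.of B B) := Module.injective_object_of_injective_module _ _
  have hPB : Projective (ModuleCat.of B B) := (IsProjective.iff_projective _).mp inferInstance
  have hseq := shortExact_of (LinearMap.inl B B U) (LinearMap.snd B B U) LinearMap.inl_injective
    LinearMap.snd_surjective (fun a => rfl) (fun b hb => ⟨b.1, Prod.ext rfl hb.symm⟩)
  have hUM : EV B U (B × U) := fun n => co_mid hseq (ModuleCat.of B U) (n + 1)
    (subsingleton_of_forall_eq 0 fun x => Ext.eq_zero_of_injective x) (hU n)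
  have hMM : EV B (B × U) (B × U) := fun n => contra_mid hseq (ModuleCat.of B (B × U)) (n + 1)
    (subsingleton_of_forall_eq 0 fun x => Ext.eq_zero_of_projective x) (hUM n)
  refine ⟨fun f => LinearMap.ext fun q => ?_, fun n => ?_⟩
  · refine LinearMap.ext fun x => ?_
    have h1 := LinearMap.congr_fun (h0 (eva x ∘ₗ eC.symm.toLinearMap ∘ₗ f)) q
    exact h1
  · exact ext_of_iso eC.toModuleIso (n + 1)
      (main_step (K := K) (Chi π) hM h0 (n + 1) (B × U) hMM)

end Pool.Agent.H94.TN
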